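import Pool.Agent.TH492.Sep

set_option autoImplicit false

namespace Pool.Agent.Results.MP_366dac_co.ExpansionColoring

open Pool.Agent.TH492.Col

/-- Complete answer to the question which of the conditions (1) polynomial expansion, (2) polynomial
strong colouring numbers, (3) polynomial weak colouring numbers are equivalent for monotone
classes: (1) and (2) are equivalent, and even give one order per graph that is good for all radii
at once, while (1) and (2) together do not imply (3). -/
theorem result :
    (∀ C : (n : ℕ) → SimpleGraph (Fin n) → Prop, Monotone C →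
      (PolyExpansion C ↔ PolyCol C) ∧ (PolyCol C ↔ UniformPolyCol C)) ∧
    ∃ C : (n : ℕ) → SimpleGraph (Fin n) → Prop, Monotone C ∧ PolyExpansion C ∧ PolyCol C ∧
      ¬ PolyWcol C := by
  refine ⟨fun C _ => ⟨⟨fun h => polyCol_of_uniform (uniform_of_polyExp h), polyExp_of_polyCol⟩,
    ⟨fun h => uniform_of_polyExp (polyExp_of_polyCol h), polyCol_of_uniform⟩⟩, separation⟩

end Pool.Agent.Results.MP_366dac_co.ExpansionColoring
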